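import Mathlib
import Pool.Agent.Y82.EL.ExP

set_option autoImplicit false

/-!
MP_2c0ed3_al. For an Engel Lie algebra `A` and `a` in `A`: is `a ∈ L(A)` equivalent to
`R_a ∈ L(A^*)`? The exact criterion for `R_a ∈ L(A^*)` in all locally nilpotent Lie algebras (where
`a ∈ L(A)` always holds), over every field; a stronger form of the starting result `EngelRadical`.
-/

open Pool.Agent.Results.MP_2c0ed3_al.EngelRadical

namespace Pool.Agent.Results.MP_2c0ed3_al.LocallyNilpotentCriterion

universe u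

/-- Let `F` be a field.
(1) In every Lie algebra `A` over `F`, `R_a ∈ L(A^*)` implies `a ∈ L(A)` and that `R_x` is
nilpotent for every `x` in the ideal `(a)` generated by `a`.
(2) In a locally nilpotent Lie algebra `A` one has `L(A) = A`, and `R_a ∈ L(A^*)` holds if and only
if `R_x` is nilpotent for every `x ∈ (a)`.
(3) The nilpotence of `R_a` alone is equivalent to `R_a ∈ L(A^*)` for all locally nilpotent `A` and
all `a` exactly when `F` has characteristic zero.
(4) Over every field there is a metabelian locally nilpotent (so Engel) Lie algebra in which the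
equivalence of the question fails for some `a`. -/
theorem result (F : Type u) [Field F] :
    (∀ (A : Type u) [LieRing A] [LieAlgebra F A] (a : A), InRadicalOfMultAlg F a →
      a ∈ lieRadical F A ∧
        ∀ x ∈ LieSubmodule.lieSpan F A ({a} : Set A), IsNilpotent (R F x)) ∧
    (∀ (A : Type u) [LieRing A] [LieAlgebra F A], IsLocallyNilpotentLie F A →
      lieRadical F A = ⊤ ∧ ∀ a : A, (InRadicalOfMultAlg F a ↔
        ∀ x ∈ LieSubmodule.lieSpan F A ({a} : Set A), IsNilpotent (R F x))) ∧
    ((∀ (A : Type u) [LieRing A] [LieAlgebra F A], IsLocallyNilpotentLie F A →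
      ∀ a : A, (InRadicalOfMultAlg F a ↔ IsNilpotent (R F a))) ↔ CharZero F) ∧
    (∃ (A : Type u) (_ : LieRing A) (_ : LieAlgebra F A),
      IsLocallyNilpotentLie F A ∧ IsEngel A ∧ (∀ x y z w : A, ⁅⁅x, y⁆, ⁅z, w⁆⁆ = 0) ∧
        ∃ a : A, a ∈ lieRadical F A ∧ ¬ InRadicalOfMultAlg F a) := by
  refine ⟨?_, ?_, ?_, ?_⟩
  · intro A _ _ a h
    exact ⟨mem_lieRadical_of a h, Pool.Agent.Y82.EL.isNilpotent_of_inRadical a h⟩
  · intro A _ _ hA
    exact ⟨Pool.Agent.Y82.EL.lieRadical_eq_top hA, fun a => Pool.Agent.Y82.EL.criterion hA a⟩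
  · constructor
    · intro h
      by_contra h0
      obtain ⟨p, hp⟩ := CharP.exists F
      have hp0 : p ≠ 0 := by
        rintro rfl
        exact h0 (CharP.charP_to_charZero F)
      have : Fact p.Prime := ⟨(CharP.char_is_prime_or_zero F p).resolve_right hp0⟩
      have h1 := (h (Pool.Agent.Y82.EL.Ep F) Pool.Agent.Y82.EL.Ep.locNil
        Pool.Agent.Y82.EL.Ep.a).2 ⟨p, Pool.Agent.Y82.EL.Ep.isNilpotent_a p⟩
      exact Pool.Agent.Y82.EL.Ep.not_isNilpotent_z
        (Pool.Agent.Y82.EL.isNilpotent_of_inRadical _ h1 _ Pool.Agent.Y82.EL.Ep.z_mem)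
    · intro _ A _ _ hA a
      exact Pool.Agent.Y82.EL.criterion_zero hA a
  · have htop : lieRadical F (Ex F) = ⊤ := top_le_iff.1 (le_sSup Ex.locNil)
    refine ⟨Ex F, inferInstance, inferInstance, Pool.Agent.Y82.EL.locNil_of_top Ex.locNil,
      Ex.isEngel, ?_, Ex.a, ?_, Ex.not_mem⟩
    · intro x y z w
      ext1
      · rfl
      · rw [Ex.lie_p, Ex.lie_t, Ex.lie_t, zero_smul, zero_smul, sub_zero]
        rfl
    · rw [htop]; trivial

end Pool.Agent.Results.MP_2c0ed3_al.LocallyNilpotentCriterion
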